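import Mathlib

set_option autoImplicit false

namespace Pool.Agent.MPc0d803

/-- value of a word in the free group -/
def wd {Δ : Type} (w : List Δ) : FreeGroup Δ := (w.map FreeGroup.of).prod

lemma wd_append {Δ : Type} (u v : List Δ) : wd (u ++ v) = wd u * wd v := by
  simp [wd]

variable {Δ : Type} {g : ContextFreeGrammar Δ}

lemma produces_split {p q s : List (Symbol Δ g.NT)} (h : g.Produces (p ++ q) s) :
    (∃ p', s = p' ++ q ∧ g.Produces p p') ∨ (∃ q', s = p ++ q' ∧ g.Produces q q') := by
  obtain ⟨r, hr, h⟩ := h
  induction p generalizing s with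
  | nil => right; exact ⟨s, rfl, r, hr, h⟩
  | cons x p ih =>
    rw [List.cons_append] at h
    cases h with
    | head => left; exact ⟨r.output ++ p, by simp, r, hr, ContextFreeRule.Rewrites.head p⟩
    | cons _ h' =>
      rcases ih h' with ⟨p', e, r', hr', h''⟩ | ⟨q', e, r', hr', h''⟩
      · left
        exact ⟨x :: p', by simp [e], r', hr', ContextFreeRule.Rewrites.cons x h''⟩
      · right
        exact ⟨q', by simp [e], r', hr', h''⟩

lemma derives_split {a s : List (Symbol Δ g.NT)} (h : g.Derives a s) :
    ∀ p q, a = p ++ q → ∃ p' q', s = p' ++ q' ∧ g.Derives p p' ∧ g.Derives q q' := by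
  induction h using Relation.ReflTransGen.head_induction_on with
  | refl => intro p q e; exact ⟨p, q, e, Relation.ReflTransGen.refl, Relation.ReflTransGen.refl⟩
  | head h1 _ ih =>
    intro p q e
    rw [e] at h1
    rcases produces_split h1 with ⟨p', e', h'⟩ | ⟨q', e', h'⟩
    · obtain ⟨p'', q'', e'', h2, h3⟩ := ih p' q e'
      exact ⟨p'', q'', e'', Relation.ReflTransGen.head h' h2, h3⟩
    · obtain ⟨p'', q'', e'', h2, h3⟩ := ih p q' e'
      exact ⟨p'', q'', e'', h2, Relation.ReflTransGen.head h' h3⟩

/-- a string derives a terminal word -/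
def Prodv (g : ContextFreeGrammar Δ) (a : List (Symbol Δ g.NT)) : Prop :=
  ∃ w : List Δ, g.Derives a (w.map Symbol.terminal)

lemma prodv_append {p q : List (Symbol Δ g.NT)} (w : List Δ)
    (h : g.Derives (p ++ q) (w.map Symbol.terminal)) :
    ∃ x y : List Δ, w = x ++ y ∧ g.Derives p (x.map Symbol.terminal) ∧
      g.Derives q (y.map Symbol.terminal) := by
  obtain ⟨p', q', e, h1, h2⟩ := derives_split h p q rfl
  rw [List.map_eq_append_iff] at e
  obtain ⟨x, y, e1, e2, e3⟩ := e
  exact ⟨x, y, e1, e2 ▸ h1, e3 ▸ h2⟩

open Classical in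
/-- chosen terminal word derived from a nonterminal -/
noncomputable def cw (g : ContextFreeGrammar Δ) (A : g.NT) : List Δ :=
  if h : Prodv g [Symbol.nonterminal A] then h.choose else []

lemma cw_spec (A : g.NT) (h : Prodv g [Symbol.nonterminal A]) :
    g.Derives [Symbol.nonterminal A] ((cw g A).map Symbol.terminal) := by
  unfold cw
  rw [dif_pos h]
  exact h.choose_spec

noncomputable def sub1 (g : ContextFreeGrammar Δ) : Symbol Δ g.NT → List Δ
  | Symbol.terminal t => [t]
  | Symbol.nonterminal A => cw g A

/-- substitute the chosen words -/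
noncomputable def subst (g : ContextFreeGrammar Δ) (a : List (Symbol Δ g.NT)) : List Δ :=
  a.flatMap (sub1 g)

lemma subst_append (a b : List (Symbol Δ g.NT)) : subst g (a ++ b) = subst g a ++ subst g b := by
  simp [subst]

lemma subst_terminal (w : List Δ) : subst g (w.map Symbol.terminal) = w := by
  induction w with
  | nil => rfl
  | cons a w ih =>
    have : subst g ((a :: w).map Symbol.terminal) = a :: subst g (w.map Symbol.terminal) := rfl
    rw [this, ih]

lemma subst_derives (a : List (Symbol Δ g.NT)) (h : Prodv g a) :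
    g.Derives a ((subst g a).map Symbol.terminal) := by
  induction a with
  | nil => exact Relation.ReflTransGen.refl
  | cons x a ih =>
    obtain ⟨w, hw⟩ := h
    have hw' : g.Derives ([x] ++ a) (w.map Symbol.terminal) := hw
    obtain ⟨u, v, e, h1, h2⟩ := prodv_append w hw'
    have h3 := ih ⟨v, h2⟩
    have h4 : g.Derives [x] ((sub1 g x).map Symbol.terminal) := by
      cases x with
      | terminal t => exact Relation.ReflTransGen.refl
      | nonterminal A => exact cw_spec A ⟨u, h1⟩
    have e2 : ((subst g (x :: a)).map Symbol.terminal : List (Symbol Δ g.NT))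
        = (sub1 g x).map Symbol.terminal ++ (subst g a).map Symbol.terminal := by
      simp [subst]
    rw [e2]
    have e3 : x :: a = [x] ++ a := rfl
    rw [e3]
    exact (h4.append_right a).trans (h3.append_left _)

/-- a nonterminal occurs in a terminal context in a sentential form -/
def Reach (g : ContextFreeGrammar Δ) (A : g.NT) : Prop :=
  ∃ x : List Δ × List Δ, g.Derives [Symbol.nonterminal g.initial]
    (x.1.map Symbol.terminal ++ [Symbol.nonterminal A] ++ x.2.map Symbol.terminal)

open Classical in
noncomputable def ctx (g : ContextFreeGrammar Δ) (A : g.NT) : List Δ × List Δ :=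
  if h : Reach g A then h.choose else ([], [])

lemma ctx_spec (A : g.NT) (h : Reach g A) : g.Derives [Symbol.nonterminal g.initial]
    ((ctx g A).1.map Symbol.terminal ++ [Symbol.nonterminal A]
      ++ (ctx g A).2.map Symbol.terminal) := by
  unfold ctx
  rw [dif_pos h]
  exact h.choose_spec

lemma ctx_lang (A : g.NT) (h : Reach g A) (a : List (Symbol Δ g.NT))
    (hA : g.Derives [Symbol.nonterminal A] a) (ha : Prodv g a) :
    (ctx g A).1 ++ subst g a ++ (ctx g A).2 ∈ g.language := by
  rw [ContextFreeGrammar.mem_language_iff]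
  have h1 := ctx_spec A h
  have h2 := subst_derives a ha
  have h3 := ((hA.trans h2).append_left ((ctx g A).1.map Symbol.terminal)).append_right
    ((ctx g A).2.map Symbol.terminal)
  have := h1.trans h3
  simpa using this

/-- the finite set of relators -/
noncomputable def finRel (g : ContextFreeGrammar Δ) : Set (FreeGroup Δ) :=
  {x | x = wd (subst g [Symbol.nonterminal g.initial]) ∨
    (∃ r ∈ g.rules, x = wd ((ctx g r.input).1 ++ subst g [Symbol.nonterminal r.input]
      ++ (ctx g r.input).2)) ∨
    (∃ r ∈ g.rules, x = wd ((ctx g r.input).1 ++ subst g r.output ++ (ctx g r.input).2))}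

lemma finRel_finite (g : ContextFreeGrammar Δ) : (finRel g).Finite := by
  have h1 : finRel g = {wd (subst g [Symbol.nonterminal g.initial])} ∪
    ((fun r : ContextFreeRule Δ g.NT => wd ((ctx g r.input).1 ++
      subst g [Symbol.nonterminal r.input] ++ (ctx g r.input).2)) '' (g.rules : Set _)) ∪
    ((fun r : ContextFreeRule Δ g.NT => wd ((ctx g r.input).1 ++ subst g r.output
      ++ (ctx g r.input).2)) '' (g.rules : Set _)) := by
    ext x
    simp only [finRel, Set.mem_setOf_eq, Set.mem_union, Set.mem_singleton_iff, Set.mem_image,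
      Finset.mem_coe]
    constructor
    · rintro (h | ⟨r, hr, h⟩ | ⟨r, hr, h⟩)
      · exact Or.inl (Or.inl h)
      · exact Or.inl (Or.inr ⟨r, hr, h.symm⟩)
      · exact Or.inr ⟨r, hr, h.symm⟩
    · rintro ((h | ⟨r, hr, h⟩) | ⟨r, hr, h⟩)
      · exact Or.inl h
      · exact Or.inr (Or.inl ⟨r, hr, h.symm⟩)
      · exact Or.inr (Or.inr ⟨r, hr, h.symm⟩)
  rw [h1]
  exact ((Set.finite_singleton _).union ((Finset.finite_toSet _).image _)).union
    ((Finset.finite_toSet _).image _)

/-- the key invariance: any homomorphism killing the elements of `finRel` lying in the relator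
set kills the whole language -/
lemma key {H : Type} [Group H] (f : FreeGroup Δ →* H)
    (hf : ∀ x ∈ finRel g, x ∈ wd '' (g.language : Set (List Δ)) → f x = 1) :
    ∀ w ∈ g.language, f (wd w) = 1 := by
  intro w hw
  have main : ∀ a : List (Symbol Δ g.NT), g.Derives [Symbol.nonterminal g.initial] a →
      g.Derives a (w.map Symbol.terminal) → f (wd (subst g a)) = f (wd w) := by
    intro a h1 h2
    induction h2 using Relation.ReflTransGen.head_induction_on with
    | refl => rw [subst_terminal]
    | @head a b h3 h4 ih =>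
      rw [← ih (h1.trans h3.single)]
      obtain ⟨r, hr, hrw⟩ := h3
      obtain ⟨p, q, ea, eb⟩ := ContextFreeRule.rewrites_iff.1 hrw
      have h5 : g.Derives a (w.map Symbol.terminal) :=
        Relation.ReflTransGen.head ⟨r, hr, hrw⟩ h4
      rw [ea, List.append_assoc] at h5
      obtain ⟨x, y, e1, hx, hy⟩ := prodv_append w h5
      obtain ⟨y1, y2, e2, hy1, hy2⟩ := prodv_append y hy
      have h6 := h4
      rw [eb, List.append_assoc] at h6
      obtain ⟨x', y', _, _, hy'⟩ := prodv_append w h6
      obtain ⟨z1, z2, _, hz1, _⟩ := prodv_append y' hy'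
      have hreach : Reach g r.input := by
        refine ⟨(x, y2), ?_⟩
        have h7 := h1
        rw [ea] at h7
        have h8 := (hx.append_right ([Symbol.nonterminal r.input] ++ q))
        have h9 := (hy2.append_left (x.map Symbol.terminal ++ [Symbol.nonterminal r.input]))
        rw [← List.append_assoc] at h8
        refine h7.trans (h8.trans ?_)
        rw [← List.append_assoc]
        exact h9
      have k1 : f (wd ((ctx g r.input).1 ++ subst g [Symbol.nonterminal r.input]
          ++ (ctx g r.input).2)) = 1 := by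
        apply hf
        · exact Or.inr (Or.inl ⟨r, hr, rfl⟩)
        · exact ⟨_, ctx_lang r.input hreach _ Relation.ReflTransGen.refl ⟨y1, hy1⟩, rfl⟩
      have k2 : f (wd ((ctx g r.input).1 ++ subst g r.output ++ (ctx g r.input).2)) = 1 := by
        apply hf
        · exact Or.inr (Or.inr ⟨r, hr, rfl⟩)
        · refine ⟨_, ctx_lang r.input hreach _ ?_ ⟨z1, hz1⟩, rfl⟩
          exact Relation.ReflTransGen.single ⟨r, hr, ContextFreeRule.Rewrites.input_output⟩
      have k3 : f (wd (subst g [Symbol.nonterminal r.input])) = f (wd (subst g r.output)) := by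
        rw [wd_append, wd_append, map_mul, map_mul] at k1 k2
        rw [← k2] at k1
        exact mul_left_cancel (mul_right_cancel k1)
      rw [ea, eb]
      simp only [subst_append, wd_append, map_mul, k3]
  have hw' : g.Derives [Symbol.nonterminal g.initial] (w.map Symbol.terminal) := hw
  rw [← main _ Relation.ReflTransGen.refl hw']
  apply hf
  · exact Or.inl rfl
  · refine ⟨_, ?_, rfl⟩
    exact subst_derives _ ⟨w, hw'⟩

/-- A context-free relator set is, as far as homomorphisms are concerned, finite. -/
theorem cf_finite (L : Language Δ) (hL : L.IsContextFree) :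
    ∃ S : Set (FreeGroup Δ), S.Finite ∧ S ⊆ wd '' (L : Set (List Δ)) ∧
      ∀ (H : Type) [Group H] (f : FreeGroup Δ →* H), (∀ x ∈ S, f x = 1) →
        ∀ w ∈ L, f (wd w) = 1 := by
  obtain ⟨g, rfl⟩ := hL
  refine ⟨finRel g ∩ wd '' (g.language : Set (List Δ)), (finRel_finite g).inter_of_left _,
    Set.inter_subset_right, ?_⟩
  intro H _ f hf
  exact key f (fun x h1 h2 => hf x ⟨h1, h2⟩)

end Pool.Agent.MPc0d803
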