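import Mathlib

/-!
Definitions for MP_c0d803_al: indexed grammars (Aho 1968), groups defined by an indexed
(= nested stack) set of relators and by a context-free set of relators.
-/

set_option autoImplicit false

namespace Pool.Agent.MPc0d803

/-- An indexed grammar over the terminal alphabet `T` (A. V. Aho, Indexed grammars, 1968):
finitely many nonterminals `N` and flags (indices) `F`, a start symbol, a finite set `prods` of
productions `A → χ` with `χ` a string of terminals and nonterminals followed by flag strings,
and for every flag `f` a finite set `flagProds f` of index productions `A f → χ` with `χ` a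
string of terminals and nonterminals. -/
structure IndexedGrammar (T : Type) where
  N : Type
  F : Type
  finiteN : Finite N
  finiteF : Finite F
  start : N
  prods : Set (N × List (T ⊕ (N × List F)))
  flagProds : F → Set (N × List (T ⊕ N))
  finiteProds : prods.Finite
  finiteFlagProds : ∀ f, (flagProds f).Finite

namespace IndexedGrammar

variable {T : Type}

/-- Sentential forms: strings of terminals and of nonterminals carrying a string of flags. -/
abbrev Form (g : IndexedGrammar T) : Type := List (T ⊕ (g.N × List g.F))

/-- Append the remaining flags `ζ` to the flag string of a symbol (terminals drop them). -/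
def push (g : IndexedGrammar T) (ζ : List g.F) :
    T ⊕ (g.N × List g.F) → T ⊕ (g.N × List g.F)
  | Sum.inl t => Sum.inl t
  | Sum.inr (B, η) => Sum.inr (B, η ++ ζ)

/-- Attach the flag string `ζ` to a nonterminal (terminals drop it). -/
def attach (g : IndexedGrammar T) (ζ : List g.F) :
    T ⊕ g.N → T ⊕ (g.N × List g.F)
  | Sum.inl t => Sum.inl t
  | Sum.inr B => Sum.inr (B, ζ)

/-- One derivation step of an indexed grammar. -/
inductive Step (g : IndexedGrammar T) : g.Form → g.Form → Prop
  /-- `A → χ` in `prods`:  `u (A ζ) v ⇒ u χ' v`, `ζ` being copied to all nonterminals of `χ`. -/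
  | prod (u v : g.Form) (A : g.N) (ζ : List g.F) (χ : List (T ⊕ (g.N × List g.F)))
      (h : (A, χ) ∈ g.prods) :
      Step g (u ++ Sum.inr (A, ζ) :: v) (u ++ χ.map (g.push ζ) ++ v)
  /-- `A → χ` in the flag `f`:  `u (A f ζ) v ⇒ u χ' v`, the flag `f` being consumed. -/
  | flag (u v : g.Form) (A : g.N) (f : g.F) (ζ : List g.F) (χ : List (T ⊕ g.N))
      (h : (A, χ) ∈ g.flagProds f) :
      Step g (u ++ Sum.inr (A, f :: ζ) :: v) (u ++ χ.map (g.attach ζ) ++ v)

/-- The language generated by an indexed grammar. -/
def language (g : IndexedGrammar T) : Language T :=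
  {w | Relation.ReflTransGen g.Step [Sum.inr (g.start, [])] (w.map Sum.inl)}

end IndexedGrammar

/-- Indexed languages (= the languages of nested stack automata). -/
def IsIndexed {T : Type} (L : Language T) : Prop := ∃ g : IndexedGrammar T, g.language = L

/-- The words of `L`, read as elements of the free group on the alphabet. -/
def relators {Δ : Type} (L : Language Δ) : Set (FreeGroup Δ) :=
  {x | ∃ w ∈ L, x = (w.map FreeGroup.of).prod}

/-- `G ≅ ⟨Δ; w = 1 (w ∈ L)⟩` for some finite alphabet `Δ` and some indexed language `L`. -/
def IsNestedStackGroup (G : Type) [Group G] : Prop :=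
  ∃ (Δ : Type) (_ : Finite Δ) (L : Language Δ), IsIndexed L ∧
    Nonempty (G ≃* PresentedGroup (relators L))

/-- `G ≅ ⟨Δ; w = 1 (w ∈ L)⟩` for some finite alphabet `Δ` and some context-free language `L`. -/
def IsContextFreeGroup (G : Type) [Group G] : Prop :=
  ∃ (Δ : Type) (_ : Finite Δ) (L : Language Δ), L.IsContextFree ∧
    Nonempty (G ≃* PresentedGroup (relators L))

end Pool.Agent.MPc0d803
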