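import Pool.Agent.MPc0d803.Main

set_option autoImplicit false

namespace Pool.Agent.MPc0d803

open Filter

def swp (m : ℕ) : Equiv.Perm ℤ := Equiv.swap 0 (m : ℤ)
def sh : Equiv.Perm ℤ := Equiv.addRight 1

lemma sh_pow (n : ℕ) (z : ℤ) : (sh ^ n) z = z + n := by
  induction n generalizing z with
  | zero => simp
  | succ n ih =>
    rw [pow_succ, Equiv.Perm.mul_apply, ih]
    have : sh z = z + 1 := rfl
    rw [this]
    push_cast
    ring

noncomputable def fgen (m : ℕ) : Lt → Equiv.Perm ℤ
  | Lt.a => swp m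
  | Lt.t => sh
  | Lt.a' => (swp m)⁻¹
  | Lt.t' => sh⁻¹

noncomputable def fm (m : ℕ) : FreeGroup Lt →* Equiv.Perm ℤ := FreeGroup.lift (fgen m)

lemma fm_wd (m : ℕ) (w : List Lt) : fm m (wd w) = (w.map (fgen m)).prod := by
  unfold wd fm
  rw [map_list_prod, List.map_map]
  congr 1

lemma conj_swp (m n : ℕ) :
    sh ^ n * swp m * (sh ^ n)⁻¹ = Equiv.swap (n : ℤ) (m + n : ℤ) := by
  unfold swp
  rw [Equiv.mul_swap_eq_swap_mul, sh_pow, sh_pow, mul_assoc, mul_inv_cancel, mul_one, zero_add]

lemma fm_rw (m n : ℕ) : fm m (wd (rw' n)) =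
    swp m * Equiv.swap (n : ℤ) (m + n : ℤ) * (swp m)⁻¹ * (Equiv.swap (n : ℤ) (m + n : ℤ))⁻¹ := by
  rw [fm_wd, ← conj_swp]
  unfold rw'
  simp only [List.map_append, List.map_cons, List.map_nil, List.map_replicate, List.prod_append,
    List.prod_cons, List.prod_nil, List.prod_replicate, mul_one, fgen]
  group

lemma fm_rw_ne (m n : ℕ) (h : m ≠ n) : fm m (wd (rw' n)) = 1 := by
  rw [fm_rw]
  have hc : swp m * Equiv.swap (n : ℤ) (m + n : ℤ) = Equiv.swap (n : ℤ) (m + n : ℤ) * swp m := by
    rcases Nat.eq_zero_or_pos n with h0 | h0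
    · subst h0
      simp [swp]
    · have hd : Equiv.Perm.Disjoint (swp m) (Equiv.swap (n : ℤ) (m + n : ℤ)) := by
        intro z
        unfold swp
        by_cases h1 : z = 0
        · right
          apply Equiv.swap_apply_of_ne_of_ne <;> omega
        · by_cases h2 : z = m
          · right
            apply Equiv.swap_apply_of_ne_of_ne <;> omega
          · left
            exact Equiv.swap_apply_of_ne_of_ne h1 h2
      exact hd.commute
  rw [hc]
  group

lemma fm_rw_self (m : ℕ) (h : 1 ≤ m) : fm m (wd (rw' m)) ≠ 1 := by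
  rw [fm_rw]
  intro h1
  have h2 : swp m * Equiv.swap (m : ℤ) (m + m : ℤ) = Equiv.swap (m : ℤ) (m + m : ℤ) * swp m := by
    have := mul_inv_eq_one.1 h1
    have := mul_inv_eq_iff_eq_mul.1 this
    exact this
  have h3 := congrArg (fun p : Equiv.Perm ℤ => p 0) h2
  simp only [Equiv.Perm.mul_apply] at h3
  unfold swp at h3
  have e1 : Equiv.swap (m : ℤ) (m + m : ℤ) 0 = 0 :=
    Equiv.swap_apply_of_ne_of_ne (by omega) (by omega)
  have e2 : Equiv.swap (0 : ℤ) (m : ℤ) 0 = m := Equiv.swap_apply_left _ _
  have e3 : Equiv.swap (m : ℤ) (m + m : ℤ) m = m + m := Equiv.swap_apply_left _ _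
  rw [e1, e2, e3] at h3
  omega

lemma ev_lang (w : List Lt) (hw : w ∈ G0.language) : ∀ᶠ m in atTop, fm m (wd w) = 1 := by
  rcases lang_sound w hw with rfl | rfl | ⟨n, rfl⟩
  · refine Eventually.of_forall fun m => ?_
    rw [fm_wd]
    simp [fgen]
  · refine Eventually.of_forall fun m => ?_
    rw [fm_wd]
    simp [fgen]
  · refine (eventually_gt_atTop n).mono fun m hm => ?_
    exact fm_rw_ne m n (by omega)

/-- the elements eventually killed by the homomorphisms `fm m` -/
noncomputable def KK : Subgroup (FreeGroup Lt) where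
  carrier := {z | ∀ᶠ m in atTop, fm m z = 1}
  one_mem' := Eventually.of_forall fun m => map_one _
  mul_mem' := by
    intro x y hx hy
    have hx' : ∀ᶠ m in atTop, fm m x = 1 := hx
    have hy' : ∀ᶠ m in atTop, fm m y = 1 := hy
    show ∀ᶠ m in atTop, fm m (x * y) = 1
    filter_upwards [hx', hy'] with m h1 h2
    rw [map_mul, h1, h2, mul_one]
  inv_mem' := by
    intro x hx
    have hx' : ∀ᶠ m in atTop, fm m x = 1 := hx
    show ∀ᶠ m in atTop, fm m x⁻¹ = 1
    filter_upwards [hx'] with m h1
    rw [map_inv, h1, inv_one]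

lemma mem_KK (z : FreeGroup Lt) : z ∈ KK ↔ ∀ᶠ m in atTop, fm m z = 1 := Iff.rfl

instance : KK.Normal := by
  constructor
  intro x hx y
  rw [mem_KK] at hx ⊢
  filter_upwards [hx] with m h1
  rw [map_mul, map_mul, h1, mul_one, map_inv, mul_inv_cancel]

lemma ncl_le : Subgroup.normalClosure (relators G0.language) ≤ KK := by
  apply Subgroup.normalClosure_le_normal
  rintro x ⟨w, hw, rfl⟩
  exact ev_lang w hw

theorem main : ∃ (G : Type) (_ : Group G),
    Group.FG G ∧ IsNestedStackGroup G ∧ ¬ IsContextFreeGroup G := by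
  refine ⟨PresentedGroup (relators G0.language), inferInstance, ?_, ?_, ?_⟩
  · exact Group.fg_of_surjective (PresentedGroup.mk_surjective (relators G0.language))
  · exact ⟨Lt, inferInstance, G0.language, ⟨G0, rfl⟩, ⟨MulEquiv.refl _⟩⟩
  · rintro ⟨Δ, hfin, L, hL, ⟨e⟩⟩
    obtain ⟨S, hSfin, hS, hkill⟩ := cf_finite L hL
    have hθ : ∀ y : Δ, ∃ z : FreeGroup Lt, PresentedGroup.mk (relators G0.language) z
        = e.symm (PresentedGroup.of y) := fun y => PresentedGroup.mk_surjective _ _
    choose θ hθ using hθ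
    set Θ : FreeGroup Δ →* FreeGroup Lt := FreeGroup.lift θ with hΘ
    have hmk : ∀ z : FreeGroup Δ, PresentedGroup.mk (relators G0.language) (Θ z)
        = e.symm (PresentedGroup.mk (relators L) z) := by
      have : (PresentedGroup.mk (relators G0.language)).comp Θ
          = (e.symm.toMonoidHom).comp (PresentedGroup.mk (relators L)) := by
        apply FreeGroup.ext_hom
        intro y
        simp only [MonoidHom.comp_apply, hΘ, FreeGroup.lift_apply_of]
        exact hθ y
      intro z
      exact DFunLike.congr_fun this z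
    have hη : ∀ x : Lt, ∃ z : FreeGroup Δ, PresentedGroup.mk (relators L) z
        = e (PresentedGroup.of x) := fun x => PresentedGroup.mk_surjective _ _
    choose η hη using hη
    have ev1 : ∀ᶠ m in atTop, ∀ s ∈ S, fm m (Θ s) = 1 := by
      rw [eventually_all_finite hSfin]
      intro s hs
      rw [← mem_KK]
      apply ncl_le
      rw [← PresentedGroup.mk_eq_one_iff, hmk]
      obtain ⟨w, hw, rfl⟩ := hS hs
      have : PresentedGroup.mk (relators L) (wd w) = 1 :=
        PresentedGroup.one_of_mem ⟨w, hw, rfl⟩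
      rw [this, map_one]
    have ev2 : ∀ᶠ m in atTop, ∀ x : Lt, fm m (Θ (η x)) = fm m (FreeGroup.of x) := by
      rw [eventually_all]
      intro x
      have h1 : (FreeGroup.of x)⁻¹ * Θ (η x) ∈ KK := by
        apply ncl_le
        rw [← PresentedGroup.mk_eq_one_iff, map_mul, map_inv, hmk, hη, MulEquiv.symm_apply_apply]
        exact inv_mul_cancel _
      rw [mem_KK] at h1
      filter_upwards [h1] with m h2
      rw [map_mul, map_inv] at h2
      exact (inv_mul_eq_one.1 h2).symm
    obtain ⟨m, ⟨h1, h2⟩, h3⟩ := ((ev1.and ev2).and (eventually_ge_atTop 1)).exists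
    have hF : ∀ w ∈ L, ((fm m).comp Θ) (wd w) = 1 :=
      hkill (Equiv.Perm ℤ) ((fm m).comp Θ) h1
    have hrel : ∀ r ∈ relators L,
        FreeGroup.lift (fun y => ((fm m).comp Θ) (FreeGroup.of y)) r = 1 := by
      rintro r ⟨w, hw, rfl⟩
      have e1 : FreeGroup.lift (fun y => ((fm m).comp Θ) (FreeGroup.of y)) = (fm m).comp Θ := by
        apply FreeGroup.ext_hom
        intro y
        simp
      rw [e1]
      exact hF w hw
    set h := PresentedGroup.toGroup hrel with hh
    have hmk2 : ∀ z : FreeGroup Δ, h (PresentedGroup.mk (relators L) z)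
        = ((fm m).comp Θ) z := by
      have : h.comp (PresentedGroup.mk (relators L)) = (fm m).comp Θ := by
        apply FreeGroup.ext_hom
        intro y
        rw [MonoidHom.comp_apply]
        exact PresentedGroup.toGroup.of hrel
      intro z
      exact DFunLike.congr_fun this z
    have hfm : fm m = (h.comp e.toMonoidHom).comp (PresentedGroup.mk (relators G0.language)) := by
      apply FreeGroup.ext_hom
      intro x
      have e1 : ((h.comp e.toMonoidHom).comp (PresentedGroup.mk (relators G0.language)))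
          (FreeGroup.of x) = h (e (PresentedGroup.of x)) := rfl
      rw [e1, ← hη x, hmk2, MonoidHom.comp_apply, h2 x]
    apply fm_rw_self m h3
    rw [hfm]
    have e2 : PresentedGroup.mk (relators G0.language) (wd (rw' m)) = 1 :=
      PresentedGroup.one_of_mem ⟨rw' m, lang_complete m, rfl⟩
    rw [MonoidHom.comp_apply, e2, map_one]

end Pool.Agent.MPc0d803
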