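import Pool.Agent.MPc0d803.Defs
import Pool.Agent.MPc0d803.CF

set_option autoImplicit false

namespace Pool.Agent.MPc0d803

/-! ### the grammar -/

inductive Lt | a | t | a' | t'

inductive NN | S | W | X | Y

inductive FF | f | g

instance : Finite Lt := Finite.of_surjective
  (fun i : Fin 4 => match i with | 0 => Lt.a | 1 => Lt.t | 2 => Lt.a' | 3 => Lt.t')
  (by rintro (_ | _ | _ | _)
      · exact ⟨0, rfl⟩
      · exact ⟨1, rfl⟩
      · exact ⟨2, rfl⟩
      · exact ⟨3, rfl⟩)

instance : Finite NN := Finite.of_surjective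
  (fun i : Fin 4 => match i with | 0 => NN.S | 1 => NN.W | 2 => NN.X | 3 => NN.Y)
  (by rintro (_ | _ | _ | _)
      · exact ⟨0, rfl⟩
      · exact ⟨1, rfl⟩
      · exact ⟨2, rfl⟩
      · exact ⟨3, rfl⟩)

instance : Finite FF := Finite.of_surjective
  (fun i : Fin 2 => match i with | 0 => FF.f | 1 => FF.g)
  (by rintro (_ | _)
      · exact ⟨0, rfl⟩
      · exact ⟨1, rfl⟩)

open Sum

/-- the relator `a tⁿ a t⁻ⁿ a⁻¹ tⁿ a⁻¹ t⁻ⁿ` as a positive word -/
def rw' (n : ℕ) : List Lt :=
  [Lt.a] ++ List.replicate n Lt.t ++ [Lt.a] ++ List.replicate n Lt.t' ++ [Lt.a'] ++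
    List.replicate n Lt.t ++ [Lt.a'] ++ List.replicate n Lt.t'

def prods0 : List (NN × List (Lt ⊕ (NN × List FF))) :=
  [(NN.S, [inl Lt.a, inl Lt.a']), (NN.S, [inl Lt.t, inl Lt.t']), (NN.S, [inr (NN.W, [FF.g])]),
   (NN.W, [inr (NN.W, [FF.f])]),
   (NN.W, [inl Lt.a, inr (NN.X, []), inl Lt.a, inr (NN.Y, []), inl Lt.a', inr (NN.X, []),
     inl Lt.a', inr (NN.Y, [])])]

def flag0 : FF → List (NN × List (Lt ⊕ NN))
  | FF.f => [(NN.X, [inl Lt.t, inr NN.X]), (NN.Y, [inl Lt.t', inr NN.Y])]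
  | FF.g => [(NN.X, []), (NN.Y, [])]

@[reducible] def G0 : IndexedGrammar Lt where
  N := NN
  F := FF
  finiteN := inferInstance
  finiteF := inferInstance
  start := NN.S
  prods := {x | x ∈ prods0}
  flagProds := fun f => {x | x ∈ flag0 f}
  finiteProds := List.finite_toSet _
  finiteFlagProds := fun _ => List.finite_toSet _

/-- number of leading `f`s -/
def cnt : List FF → ℕ
  | FF.f :: l => cnt l + 1
  | _ => 0

/-- semantics of a symbol -/
def sem1 : Lt ⊕ (NN × List FF) → List Lt → Prop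
  | inl c, w => w = [c]
  | inr (NN.S, _), w => w = [Lt.a, Lt.a'] ∨ w = [Lt.t, Lt.t'] ∨ ∃ n, w = rw' n
  | inr (NN.W, _), w => ∃ n, w = rw' n
  | inr (NN.X, σ), w => w = List.replicate (cnt σ) Lt.t
  | inr (NN.Y, σ), w => w = List.replicate (cnt σ) Lt.t'

def sem : List (Lt ⊕ (NN × List FF)) → List Lt → Prop
  | [], w => w = []
  | x :: l, w => ∃ w1 w2, w = w1 ++ w2 ∧ sem1 x w1 ∧ sem l w2

lemma sem_append (u v : List (Lt ⊕ (NN × List FF))) (w : List Lt) :
    sem (u ++ v) w ↔ ∃ w1 w2, w = w1 ++ w2 ∧ sem u w1 ∧ sem v w2 := by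
  induction u generalizing w with
  | nil =>
    constructor
    · intro h; exact ⟨[], w, rfl, rfl, h⟩
    · rintro ⟨w1, w2, e, h1, h2⟩
      have : w1 = [] := h1
      subst this
      rw [e]; exact h2
  | cons x u ih =>
    constructor
    · rintro ⟨w1, w2, e, h1, h2⟩
      obtain ⟨w3, w4, e', h3, h4⟩ := (ih w2).1 h2
      exact ⟨w1 ++ w3, w4, by rw [e, e', List.append_assoc], ⟨w1, w3, rfl, h1, h3⟩, h4⟩
    · rintro ⟨w1, w2, e, ⟨w3, w4, e', h3, h4⟩, h2⟩
      exact ⟨w3, w4 ++ w2, by rw [e, e', List.append_assoc], h3, (ih _).2 ⟨w4, w2, rfl, h4, h2⟩⟩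

lemma sem_terminal (u w : List Lt) : sem (u.map inl) w → w = u := by
  induction u generalizing w with
  | nil => intro h; exact h
  | cons x u ih =>
    rintro ⟨w1, w2, e, h1, h2⟩
    have h1' : w1 = [x] := h1
    rw [e, h1', ih w2 h2]
    rfl

lemma step_sound (α β : G0.Form) (h : G0.Step α β) (w : List Lt) (hw : sem β w) : sem α w := by
  cases h with
  | prod u v A ζ χ hp =>
    have e : u ++ inr (A, ζ) :: v = u ++ ([inr (A, ζ)] ++ v) := rfl
    rw [e, sem_append]
    rw [List.append_assoc, sem_append] at hw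
    obtain ⟨w1, w2, e1, h1, h2⟩ := hw
    rw [sem_append] at h2
    obtain ⟨w3, w4, e2, h3, h4⟩ := h2
    refine ⟨w1, w2, e1, h1, ?_⟩
    rw [sem_append]
    refine ⟨w3, w4, e2, ⟨w3, [], by simp, ?_, rfl⟩, h4⟩
    have hp' : (A, χ) ∈ prods0 := hp
    simp only [prods0, List.mem_cons, Prod.mk.injEq, List.not_mem_nil, or_false] at hp'
    rcases hp' with ⟨rfl, rfl⟩ | ⟨rfl, rfl⟩ | ⟨rfl, rfl⟩ | ⟨rfl, rfl⟩ | ⟨rfl, rfl⟩
    · obtain ⟨x1, x2, e3, h5, x3, x4, e4, h6, h7⟩ := h3
      have h5' : x1 = [Lt.a] := h5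
      have h6' : x3 = [Lt.a'] := h6
      have h7' : x4 = [] := h7
      left
      rw [e3, e4, h5', h6', h7']
      rfl
    · obtain ⟨x1, x2, e3, h5, x3, x4, e4, h6, h7⟩ := h3
      have h5' : x1 = [Lt.t] := h5
      have h6' : x3 = [Lt.t'] := h6
      have h7' : x4 = [] := h7
      right; left
      rw [e3, e4, h5', h6', h7']
      rfl
    · obtain ⟨x1, x2, e3, ⟨n, h5⟩, h6⟩ := h3
      have h6' : x2 = [] := h6
      right; right
      exact ⟨n, by rw [e3, h5, h6', List.append_nil]⟩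
    · obtain ⟨x1, x2, e3, ⟨n, h5⟩, h6⟩ := h3
      have h6' : x2 = [] := h6
      exact ⟨n, by rw [e3, h5, h6', List.append_nil]⟩
    · obtain ⟨x1, y1, e3, h5, x2, y2, e4, h6, x3, y3, e5, h7, x4, y4, e6, h8, x5, y5, e7, h9,
        x6, y6, e8, h10, x7, y7, e9, h11, x8, y8, e10, h12, h13⟩ := h3
      have k1 : x1 = [Lt.a] := h5
      have k2 : x2 = List.replicate (cnt ζ) Lt.t := h6
      have k3 : x3 = [Lt.a] := h7
      have k4 : x4 = List.replicate (cnt ζ) Lt.t' := h8
      have k5 : x5 = [Lt.a'] := h9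
      have k6 : x6 = List.replicate (cnt ζ) Lt.t := h10
      have k7 : x7 = [Lt.a'] := h11
      have k8 : x8 = List.replicate (cnt ζ) Lt.t' := h12
      have k9 : y8 = [] := h13
      refine ⟨cnt ζ, ?_⟩
      rw [e3, e4, e5, e6, e7, e8, e9, e10, k1, k2, k3, k4, k5, k6, k7, k8, k9]
      simp [rw']
  | flag u v A f ζ χ hp =>
    have e : u ++ inr (A, f :: ζ) :: v = u ++ ([inr (A, f :: ζ)] ++ v) := rfl
    rw [e, sem_append]
    rw [List.append_assoc, sem_append] at hw
    obtain ⟨w1, w2, e1, h1, h2⟩ := hw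
    rw [sem_append] at h2
    obtain ⟨w3, w4, e2, h3, h4⟩ := h2
    refine ⟨w1, w2, e1, h1, ?_⟩
    rw [sem_append]
    refine ⟨w3, w4, e2, ⟨w3, [], by simp, ?_, rfl⟩, h4⟩
    have hp' : (A, χ) ∈ flag0 f := hp
    cases f with
    | f =>
      simp only [flag0, List.mem_cons, Prod.mk.injEq, List.not_mem_nil, or_false] at hp'
      rcases hp' with ⟨rfl, rfl⟩ | ⟨rfl, rfl⟩
      · obtain ⟨x1, x2, e3, h5, x3, x4, e4, h6, h7⟩ := h3
        have h5' : x1 = [Lt.t] := h5
        have h6' : x3 = List.replicate (cnt ζ) Lt.t := h6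
        have h7' : x4 = [] := h7
        show w3 = List.replicate (cnt ζ + 1) Lt.t
        rw [e3, e4, h5', h6', h7', List.replicate_succ]
        simp
      · obtain ⟨x1, x2, e3, h5, x3, x4, e4, h6, h7⟩ := h3
        have h5' : x1 = [Lt.t'] := h5
        have h6' : x3 = List.replicate (cnt ζ) Lt.t' := h6
        have h7' : x4 = [] := h7
        show w3 = List.replicate (cnt ζ + 1) Lt.t'
        rw [e3, e4, h5', h6', h7', List.replicate_succ]
        simp
    | g =>
      simp only [flag0, List.mem_cons, Prod.mk.injEq, List.not_mem_nil, or_false] at hp'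
      rcases hp' with ⟨rfl, rfl⟩ | ⟨rfl, rfl⟩
      · exact h3
      · exact h3

lemma lang_sound (w : List Lt) (hw : w ∈ G0.language) :
    w = [Lt.a, Lt.a'] ∨ w = [Lt.t, Lt.t'] ∨ ∃ n, w = rw' n := by
  have h : Relation.ReflTransGen G0.Step [Sum.inr (G0.start, [])] (w.map Sum.inl) := hw
  have main : ∀ α : G0.Form, Relation.ReflTransGen G0.Step α (w.map Sum.inl) →
      sem α w := by
    intro α hα
    induction hα using Relation.ReflTransGen.head_induction_on with
    | refl =>
      clear h hw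
      induction w with
      | nil => rfl
      | cons x w ih => exact ⟨[x], w, rfl, rfl, ih⟩
    | head h1 _ ih => exact step_sound _ _ h1 w ih
  obtain ⟨w1, w2, e, h1, h2⟩ := main _ h
  have h2' : w2 = [] := h2
  rw [h2', List.append_nil] at e
  rw [e]
  exact h1

lemma step_ctx (p q α β : G0.Form) (h : G0.Step α β) :
    G0.Step (p ++ α ++ q) (p ++ β ++ q) := by
  cases h with
  | prod u v A ζ χ hp =>
    have := IndexedGrammar.Step.prod (g := G0) (p ++ u) (v ++ q) A ζ χ hp
    simpa using this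
  | flag u v A f ζ χ hp =>
    have := IndexedGrammar.Step.flag (g := G0) (p ++ u) (v ++ q) A f ζ χ hp
    simpa using this

lemma deriv_ctx (p q α β : G0.Form) (h : Relation.ReflTransGen G0.Step α β) :
    Relation.ReflTransGen G0.Step (p ++ α ++ q) (p ++ β ++ q) := by
  induction h with
  | refl => exact Relation.ReflTransGen.refl
  | tail _ h2 ih => exact ih.tail (step_ctx p q _ _ h2)

/-- the flag string `fⁿ g` -/
def fl (n : ℕ) : List FF := List.replicate n FF.f ++ [FF.g]

lemma deriv_X (n : ℕ) : Relation.ReflTransGen G0.Step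
    ([inr (NN.X, fl n)] : G0.Form) ((List.replicate n Lt.t).map inl) := by
  induction n with
  | zero =>
    refine Relation.ReflTransGen.single ?_
    have := IndexedGrammar.Step.flag (g := G0) [] [] NN.X FF.g [] []
      (show (NN.X, []) ∈ flag0 FF.g by simp [flag0])
    simpa [fl] using this
  | succ n ih =>
    have h1 := IndexedGrammar.Step.flag (g := G0) [] [] NN.X FF.f (fl n) [inl Lt.t, inr NN.X]
      (show (NN.X, [inl Lt.t, inr NN.X]) ∈ flag0 FF.f by simp [flag0])
    have h2 := deriv_ctx [inl Lt.t] [] _ _ ih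
    have e1 : ([] ++ inr (NN.X, FF.f :: fl n) :: [] : G0.Form) = [inr (NN.X, fl (n + 1))] := by
      simp [fl, List.replicate_succ]
    rw [e1] at h1
    refine Relation.ReflTransGen.head h1 ?_
    have e2 : ([inl Lt.t] ++ (List.replicate n Lt.t).map inl ++ [] : G0.Form)
        = (List.replicate (n + 1) Lt.t).map inl := by
      simp [List.replicate_succ]
    rw [e2] at h2
    exact h2

lemma deriv_Y (n : ℕ) : Relation.ReflTransGen G0.Step
    ([inr (NN.Y, fl n)] : G0.Form) ((List.replicate n Lt.t').map inl) := by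
  induction n with
  | zero =>
    refine Relation.ReflTransGen.single ?_
    have := IndexedGrammar.Step.flag (g := G0) [] [] NN.Y FF.g [] []
      (show (NN.Y, []) ∈ flag0 FF.g by simp [flag0])
    simpa [fl] using this
  | succ n ih =>
    have h1 := IndexedGrammar.Step.flag (g := G0) [] [] NN.Y FF.f (fl n) [inl Lt.t', inr NN.Y]
      (show (NN.Y, [inl Lt.t', inr NN.Y]) ∈ flag0 FF.f by simp [flag0])
    have h2 := deriv_ctx [inl Lt.t'] [] _ _ ih
    have e1 : ([] ++ inr (NN.Y, FF.f :: fl n) :: [] : G0.Form) = [inr (NN.Y, fl (n + 1))] := by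
      simp [fl, List.replicate_succ]
    rw [e1] at h1
    refine Relation.ReflTransGen.head h1 ?_
    have e2 : ([inl Lt.t'] ++ (List.replicate n Lt.t').map inl ++ [] : G0.Form)
        = (List.replicate (n + 1) Lt.t').map inl := by
      simp [List.replicate_succ]
    rw [e2] at h2
    exact h2

lemma deriv_W (n : ℕ) : Relation.ReflTransGen G0.Step
    ([inr (NN.S, [])] : G0.Form) [inr (NN.W, fl n)] := by
  induction n with
  | zero =>
    refine Relation.ReflTransGen.single ?_
    have := IndexedGrammar.Step.prod (g := G0) [] [] NN.S [] [inr (NN.W, [FF.g])]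
      (show (NN.S, [inr (NN.W, [FF.g])]) ∈ prods0 by simp [prods0])
    simpa [fl, IndexedGrammar.push] using this
  | succ n ih =>
    refine ih.tail ?_
    have := IndexedGrammar.Step.prod (g := G0) [] [] NN.W (fl n) [inr (NN.W, [FF.f])]
      (show (NN.W, [inr (NN.W, [FF.f])]) ∈ prods0 by simp [prods0])
    simpa [fl, IndexedGrammar.push, List.replicate_succ] using this

lemma lang_complete (n : ℕ) : rw' n ∈ G0.language := by
  show Relation.ReflTransGen G0.Step [inr (NN.S, [])] ((rw' n).map inl)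
  refine (deriv_W n).trans ?_
  have h0 := IndexedGrammar.Step.prod (g := G0) [] [] NN.W (fl n)
    [inl Lt.a, inr (NN.X, []), inl Lt.a, inr (NN.Y, []), inl Lt.a', inr (NN.X, []),
     inl Lt.a', inr (NN.Y, [])] (show _ ∈ prods0 by simp [prods0])
  have e0 : ([] ++ List.map (G0.push (fl n)) [inl Lt.a, inr (NN.X, []), inl Lt.a,
      inr (NN.Y, []), inl Lt.a', inr (NN.X, []), inl Lt.a', inr (NN.Y, [])] ++ [] : G0.Form)
      = [inl Lt.a, inr (NN.X, fl n), inl Lt.a, inr (NN.Y, fl n), inl Lt.a', inr (NN.X, fl n),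
        inl Lt.a', inr (NN.Y, fl n)] := rfl
  rw [e0] at h0
  refine Relation.ReflTransGen.head h0 ?_
  have h1 := deriv_ctx [inl Lt.a] [inl Lt.a, inr (NN.Y, fl n), inl Lt.a', inr (NN.X, fl n),
        inl Lt.a', inr (NN.Y, fl n)] _ _ (deriv_X n)
  refine h1.trans ?_
  have h2 := deriv_ctx ([inl Lt.a] ++ (List.replicate n Lt.t).map inl ++ [inl Lt.a])
    [inl Lt.a', inr (NN.X, fl n), inl Lt.a', inr (NN.Y, fl n)] _ _ (deriv_Y n)
  have h3 := deriv_ctx ([inl Lt.a] ++ (List.replicate n Lt.t).map inl ++ [inl Lt.a]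
    ++ (List.replicate n Lt.t').map inl ++ [inl Lt.a'])
    [inl Lt.a', inr (NN.Y, fl n)] _ _ (deriv_X n)
  have h4 := deriv_ctx ([inl Lt.a] ++ (List.replicate n Lt.t).map inl ++ [inl Lt.a]
    ++ (List.replicate n Lt.t').map inl ++ [inl Lt.a'] ++ (List.replicate n Lt.t).map inl
    ++ [inl Lt.a'])
    [] _ _ (deriv_Y n)
  simp only [List.append_assoc, List.append_nil, List.cons_append, List.nil_append] at h2 h3 h4 ⊢
  refine h2.trans (h3.trans ?_)
  have e : (rw' n).map inl = ([inl Lt.a] ++ (List.replicate n Lt.t).map inl ++ [inl Lt.a]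
    ++ (List.replicate n Lt.t').map inl ++ [inl Lt.a'] ++ (List.replicate n Lt.t).map inl
    ++ [inl Lt.a'] ++ (List.replicate n Lt.t').map inl : G0.Form) := by
    simp [rw']
  rw [e]
  simpa only [List.append_assoc, List.append_nil, List.cons_append, List.nil_append] using h4

end Pool.Agent.MPc0d803
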